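import Pool.Agent.K7.H37.UK.Stm
set_option autoImplicit false

/-!
Job CH of the project UK: a simple closed polygon with distinct heights and without alternations is
the union of two ascending arcs.
-/

namespace Pool.Agent.K7.H66.UK

open Pool.Agent.K7.H37.UK

theorem noAlt_rot1 {α : Type} [LT α] (l : List α) (h : NoAlt l) : NoAlt (l.rotate 1) := by
  cases l with
  | nil => simpa using h
  | cons x t =>
    rw [List.rotate_cons_succ, List.rotate_zero]
    intro a b c e hs
    rw [List.sublist_append_iff] at hs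
    obtain ⟨l1, l2, h12, h1, h2⟩ := hs
    cases h2 with
    | cons _ h3 =>
      have h4 := List.sublist_nil.1 h3
      subst h4
      rw [List.append_nil] at h12
      subst h12
      exact h a b c e (h1.cons x)
    | cons_cons _ h3 =>
      have h4 := List.sublist_nil.1 h3
      subst h4
      have h5 : [a, b, c] ++ [e] = l1 ++ [x] := h12
      obtain ⟨h6, h7⟩ := List.append_inj' h5 rfl
      subst h6
      have h8 : e = x := by simpa using h7
      subst h8
      obtain ⟨h9, h10⟩ := h e a b c (h1.cons_cons e)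
      exact ⟨fun hh => h10 ⟨hh.2.2.2, hh.1, hh.2.1, hh.2.2.1⟩,
        fun hh => h9 ⟨hh.2.2.2, hh.1, hh.2.1, hh.2.2.1⟩⟩

theorem noAlt_rot {α : Type} [LT α] (l : List α) (h : NoAlt l) (n : ℕ) : NoAlt (l.rotate n) := by
  induction n with
  | zero => simpa using h
  | succ n ih =>
    rw [← List.rotate_rotate]
    exact noAlt_rot1 _ ih

theorem edges_rot {α : Type} (l : List α) (n : ℕ) (e : α × α) :
    e ∈ (l.rotate n).zip ((l.rotate n).rotate 1) ↔ e ∈ l.zip (l.rotate 1) := by
  have h : (l.rotate n).zip ((l.rotate n).rotate 1) = (l.zip (l.rotate 1)).rotate n := by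
    rw [List.zip, List.zipWith_rotate_distrib _ _ _ _ (List.length_rotate l 1).symm]
    rw [List.rotate_rotate, List.rotate_rotate, Nat.add_comm]
  rw [h, List.mem_rotate]

theorem mem_zip_tail {α : Type} (X : List α) (a b : α) :
    (a, b) ∈ X.zip X.tail ↔ ∃ A B, X = A ++ a :: b :: B := by
  induction X with
  | nil => simp
  | cons x X ih =>
    cases X with
    | nil => simp [List.cons_eq_append_iff]
    | cons y X =>
      rw [List.tail_cons, List.zip_cons_cons, List.mem_cons]
      rw [List.tail_cons] at ih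
      constructor
      · rintro (h | h)
        · rw [Prod.mk.injEq] at h
          obtain ⟨rfl, rfl⟩ := h
          exact ⟨[], X, rfl⟩
        · obtain ⟨A, B, h⟩ := ih.1 h
          exact ⟨x :: A, B, by rw [h]; rfl⟩
      · rintro ⟨A, B, h⟩
        cases A with
        | nil =>
          left
          simp only [List.nil_append, List.cons.injEq] at h
          rw [h.1, h.2.1]
        | cons z A =>
          right
          simp only [List.cons_append, List.cons.injEq] at h
          exact ih.2 ⟨A, B, h.2⟩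

theorem arc_rev (X : List (ℂ × ℝ)) : arc X.reverse = arc X := by
  have h : ∀ X : List (ℂ × ℝ), arc X ⊆ arc X.reverse := by
    rintro X x ⟨⟨a, b⟩, he, hx⟩
    obtain ⟨A, B, rfl⟩ := (mem_zip_tail X a b).1 he
    refine ⟨(b, a), (mem_zip_tail _ b a).2 ⟨B.reverse, A.reverse, by simp⟩, ?_⟩
    rw [segment_symm]
    exact hx
  refine Set.Subset.antisymm ?_ (h X)
  have := h X.reverse
  rwa [List.reverse_reverse] at this

theorem zip_rot {α : Type} (b : α) (M : List α) :
    (b :: M).zip ((b :: M).rotate 1) = (b :: M ++ [b]).zip ((b :: M ++ [b]).tail) := by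
  rw [List.rotate_cons_succ, List.rotate_zero]
  have h : (b :: M ++ [b]).zip ((M ++ [b]) ++ []) = (b :: M).zip (M ++ [b]) ++ [b].zip [] :=
    List.zip_append (by simp)
  rw [List.append_nil] at h
  have h2 : (b :: M ++ [b]).tail = M ++ [b] := rfl
  rw [h2, h]
  simp

theorem poly_cons (b : ℂ × ℝ) (M : List (ℂ × ℝ)) : poly (b :: M) = arc (b :: M ++ [b]) := by
  unfold poly arc
  rw [zip_rot]

theorem arc_split (A B : List (ℂ × ℝ)) (t : ℂ × ℝ) :
    arc (A ++ t :: B) = arc (A ++ [t]) ∪ arc (t :: B) := by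
  ext x
  constructor
  · rintro ⟨⟨a, b⟩, he, hx⟩
    obtain ⟨P, Q, h⟩ := (mem_zip_tail _ a b).1 he
    rcases List.append_eq_append_iff.1 h with ⟨C, h1, h2⟩ | ⟨C, h1, h2⟩
    · -- P = A ++ C, t :: B = C ++ a :: b :: Q
      right
      exact ⟨(a, b), (mem_zip_tail _ a b).2 ⟨C, Q, h2⟩, hx⟩
    · -- A = P ++ C, a :: b :: Q = C ++ t :: B
      cases C with
      | nil =>
        right
        exact ⟨(a, b), (mem_zip_tail _ a b).2 ⟨[], Q, h2.symm⟩, hx⟩
      | cons c C =>
        simp only [List.cons_append, List.cons.injEq] at h2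
        obtain ⟨rfl, h3⟩ := h2
        left
        cases C with
        | nil =>
          simp only [List.nil_append, List.cons.injEq] at h3
          refine ⟨(a, b), (mem_zip_tail _ a b).2 ⟨P, [], ?_⟩, hx⟩
          rw [h1, h3.1]
          simp
        | cons c C =>
          simp only [List.cons_append, List.cons.injEq] at h3
          refine ⟨(a, b), (mem_zip_tail _ a b).2 ⟨P, C ++ [t], ?_⟩, hx⟩
          rw [h1, h3.1]
          simp
  · rintro (⟨⟨a, b⟩, he, hx⟩ | ⟨⟨a, b⟩, he, hx⟩)
    · obtain ⟨P, Q, h⟩ := (mem_zip_tail _ a b).1 he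
      refine ⟨(a, b), (mem_zip_tail _ a b).2 ⟨P, Q ++ B, ?_⟩, hx⟩
      have : A ++ t :: B = (A ++ [t]) ++ B := by simp
      rw [this, h]
      simp
    · obtain ⟨P, Q, h⟩ := (mem_zip_tail _ a b).1 he
      refine ⟨(a, b), (mem_zip_tail _ a b).2 ⟨A ++ P, Q, ?_⟩, hx⟩
      rw [h]
      simp

/-- edges of the closed polygon through indices -/
theorem simple_edges {L : List (ℂ × ℝ)} (hS : SimplePoly L) (e e' : (ℂ × ℝ) × (ℂ × ℝ))
    (he : e ∈ L.zip (L.rotate 1)) (he' : e' ∈ L.zip (L.rotate 1)) (hne : e ≠ e') (x : ℂ × ℝ)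
    (hx : x ∈ segment ℝ e.1 e.2) (hx' : x ∈ segment ℝ e'.1 e'.2) :
    (x = e.1 ∨ x = e.2) ∧ (x = e'.1 ∨ x = e'.2) := by
  obtain ⟨i, hi, h1⟩ := List.mem_iff_getElem.1 he
  obtain ⟨j, hj, h2⟩ := List.mem_iff_getElem.1 he'
  rw [List.length_zip, List.length_rotate, min_self] at hi hj
  have hij : i ≠ j := by
    rintro rfl
    exact hne (h1.symm.trans h2)
  rw [List.getElem_zip, List.getElem_rotate] at h1 h2
  subst h1 h2
  exact hS i j hi hj hij x hx hx'

theorem ch : StCh := by
  classical
  intro L hlen hnd halt hS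
  have hne : L.toFinset.Nonempty := by
    rw [List.toFinset_nonempty_iff]
    rintro rfl
    simp at hlen
  obtain ⟨bot, hbot, hbotmin⟩ := L.toFinset.exists_min_image Prod.snd hne
  rw [List.mem_toFinset] at hbot
  obtain ⟨s, t, hst⟩ := List.append_of_mem hbot
  -- rotate
  have hrot : L.rotate s.length = bot :: (t ++ s) := by
    rw [hst, List.rotate_append_length_eq]
    rfl
  set M := t ++ s with hM
  have hMlen : 2 ≤ M.length := by
    have h1 : (L.rotate s.length).length = M.length + 1 := by rw [hrot]; rfl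
    rw [List.length_rotate] at h1
    omega
  have hnd' : ((bot :: M).map Prod.snd).Nodup := by
    rw [← hrot, List.map_rotate, List.nodup_rotate]
    exact hnd
  have halt' : NoAlt ((bot :: M).map Prod.snd) := by
    rw [← hrot, List.map_rotate]
    exact noAlt_rot _ halt _
  have hedge : ∀ e, e ∈ (bot :: M).zip ((bot :: M).rotate 1) ↔ e ∈ L.zip (L.rotate 1) := by
    intro e
    rw [← hrot]
    exact edges_rot L _ e
  have hpoly : poly L = poly (bot :: M) := by
    unfold poly
    ext x
    constructor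
    · rintro ⟨e, he, hx⟩
      exact ⟨e, (hedge e).2 he, hx⟩
    · rintro ⟨e, he, hx⟩
      exact ⟨e, (hedge e).1 he, hx⟩
  have hmemL : ∀ x, x ∈ bot :: M → x ∈ L := by
    intro x hx
    rw [← hrot, List.mem_rotate] at hx
    exact hx
  rw [List.map_cons, List.nodup_cons] at hnd'
  have hbotlt : ∀ x ∈ M, bot.2 < x.2 := by
    intro x hx
    refine lt_of_le_of_ne (hbotmin x (List.mem_toFinset.2 (hmemL x (List.mem_cons_of_mem _ hx)))) ?_
    intro h
    exact hnd'.1 (List.mem_map.2 ⟨x, hx, h.symm⟩)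
  -- the top
  have hMne : M.toFinset.Nonempty := by
    rw [List.toFinset_nonempty_iff]
    intro h
    rw [h] at hMlen
    simp at hMlen
  obtain ⟨top, htop, htopmax⟩ := M.toFinset.exists_max_image Prod.snd hMne
  rw [List.mem_toFinset] at htop
  obtain ⟨l1, l2, hl⟩ := List.append_of_mem htop
  have hndM : (M.map Prod.snd).Nodup := hnd'.2
  have hinj : ∀ x ∈ M, ∀ y ∈ M, x.2 = y.2 → x = y := fun x hx y hy h =>
    List.inj_on_of_nodup_map hndM hx hy h
  have htoplt : ∀ x ∈ M, x ≠ top → x.2 < top.2 := by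
    intro x hx hxt
    refine lt_of_le_of_ne (htopmax x (List.mem_toFinset.2 hx)) ?_
    intro h
    exact hxt (hinj x hx top htop h)
  have hMnd : M.Nodup := List.Nodup.of_map _ hndM
  have hMnd2 : (l1 ++ top :: l2).Nodup := hl ▸ hMnd
  have ht1 : top ∉ l1 := by
    intro h
    have := (List.nodup_append.1 hMnd2).2.2 top h top (List.mem_cons_self)
    exact this rfl
  have ht2 : top ∉ l2 := (List.nodup_cons.1 (List.nodup_append.1 hMnd2).2.1).1
  have hm1 : ∀ x ∈ l1, x ∈ M := fun x hx => by
    rw [hl]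
    exact List.mem_append_left _ hx
  have hm2 : ∀ x ∈ l2, x ∈ M := fun x hx => by
    rw [hl]
    exact List.mem_append_right _ (List.mem_cons_of_mem _ hx)
  have hlt1 : ∀ x ∈ l1, x.2 < top.2 := fun x hx =>
    htoplt x (hm1 x hx) fun h => ht1 (h ▸ hx)
  have hlt2 : ∀ x ∈ l2, x.2 < top.2 := fun x hx =>
    htoplt x (hm2 x hx) fun h => ht2 (h ▸ hx)
  -- monotonicity
  have hp1 : l1.Pairwise fun a b => a.2 < b.2 := by
    rw [List.pairwise_iff_forall_sublist]
    intro x y hxy
    by_contra hc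
    have hx : x ∈ l1 := hxy.subset (by simp)
    have hy : y ∈ l1 := hxy.subset (by simp)
    have hxy1 : [x, y].Nodup := hxy.nodup (List.nodup_append.1 hMnd2).1
    have hxy2 : x ≠ y := by
      intro h
      rw [h] at hxy1
      simp at hxy1
    have hgt : y.2 < x.2 := lt_of_le_of_ne (not_lt.1 hc) fun h =>
      hxy2 (hinj x (hm1 x hx) y (hm1 y hy) h.symm)
    have hs : [bot, x, y, top].Sublist (bot :: M) := by
      rw [hl]
      refine List.Sublist.cons_cons _ ?_
      have : [x, y, top] = [x, y] ++ [top] := rfl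
      rw [this]
      refine hxy.append ?_
      exact List.Sublist.cons_cons _ (List.nil_sublist _)
    have := (halt' _ _ _ _ (hs.map Prod.snd)).1
    exact this ⟨hbotlt x (hm1 x hx), hgt, hlt1 y hy, hbotlt top htop⟩
  have hp2 : l2.Pairwise fun a b => b.2 < a.2 := by
    rw [List.pairwise_iff_forall_sublist]
    intro x y hxy
    by_contra hc
    have hx : x ∈ l2 := hxy.subset (by simp)
    have hy : y ∈ l2 := hxy.subset (by simp)
    have hxy1 : [x, y].Nodup :=
      hxy.nodup (List.nodup_cons.1 (List.nodup_append.1 hMnd2).2.1).2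
    have hxy2 : x ≠ y := by
      intro h
      rw [h] at hxy1
      simp at hxy1
    have hgt : x.2 < y.2 := lt_of_le_of_ne (not_lt.1 hc) fun h =>
      hxy2 (hinj x (hm2 x hx) y (hm2 y hy) h)
    have hs : [bot, top, x, y].Sublist (bot :: M) := by
      rw [hl]
      refine List.Sublist.cons_cons _ ?_
      exact (List.Sublist.cons_cons _ hxy).trans (List.sublist_append_right _ _)
    have := (halt' _ _ _ _ (hs.map Prod.snd)).1
    exact this ⟨hbotlt top htop, hlt2 x hx, hgt, hbotlt y (hm2 y hy)⟩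
  -- the arcs
  have hcX : (bot :: l1 ++ [top]).Pairwise fun a b => a.2 < b.2 := by
    rw [List.pairwise_append]
    refine ⟨List.pairwise_cons.2 ⟨fun x hx => hbotlt x (hm1 x hx), hp1⟩,
      List.pairwise_singleton _ _, ?_⟩
    intro x hx y hy
    rw [List.mem_singleton] at hy
    subst hy
    rcases List.mem_cons.1 hx with rfl | hx
    · exact hbotlt _ htop
    · exact hlt1 x hx
  have hcZ : (top :: l2 ++ [bot]).Pairwise fun a b => b.2 < a.2 := by
    rw [List.pairwise_append]
    refine ⟨List.pairwise_cons.2 ⟨fun x hx => hlt2 x hx, hp2⟩,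
      List.pairwise_singleton _ _, ?_⟩
    intro x hx y hy
    rw [List.mem_singleton] at hy
    subst hy
    rcases List.mem_cons.1 hx with rfl | hx
    · exact hbotlt _ htop
    · exact hbotlt x (hm2 x hx)
  have hcY : (bot :: l2.reverse ++ [top]).Pairwise fun a b => a.2 < b.2 := by
    have h1 : bot :: l2.reverse ++ [top] = (top :: l2 ++ [bot]).reverse := by simp
    rw [h1, List.pairwise_reverse]
    exact hcZ
  have hY : arc (bot :: l2.reverse ++ [top]) = arc (top :: l2 ++ [bot]) := by
    rw [← arc_rev (top :: l2 ++ [bot])]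
    simp
  have hP : bot :: M ++ [bot] = (bot :: l1) ++ top :: (l2 ++ [bot]) := by
    rw [hl]
    simp
  have hU : poly L = arc (bot :: l1 ++ [top]) ∪ arc (bot :: l2.reverse ++ [top]) := by
    rw [hpoly, poly_cons, hP, arc_split, hY]
    rfl
  refine ⟨bot :: l1 ++ [top], bot :: l2.reverse ++ [top], bot, top, by simp, by simp,
    rfl, rfl, ?_, ?_, hcX.isChain, hcY.isChain, hU, ?_⟩
  · exact List.getLast?_concat
  · exact List.getLast?_concat
  rw [hY]
  -- edges
  have hE1 : ∀ a b, (a, b) ∈ (bot :: l1 ++ [top]).zip (bot :: l1 ++ [top]).tail →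
      a.2 < b.2 ∧ (a, b) ∈ L.zip (L.rotate 1) ∧ a ∈ bot :: l1 ++ [top] ∧
        b ∈ bot :: l1 ++ [top] := by
    intro a b hab
    obtain ⟨A, B, hAB⟩ := (mem_zip_tail _ a b).1 hab
    refine ⟨?_, ?_, ?_, ?_⟩
    · rw [hAB] at hcX
      have := (List.pairwise_append.1 hcX).2.1
      exact (List.pairwise_cons.1 this).1 b List.mem_cons_self
    · rw [← hedge, zip_rot, mem_zip_tail, hP]
      refine ⟨A, B ++ (l2 ++ [bot]), ?_⟩
      have : (bot :: l1) ++ top :: (l2 ++ [bot]) = (bot :: l1 ++ [top]) ++ (l2 ++ [bot]) := by simp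
      rw [this, hAB]
      simp
    · rw [hAB]
      simp
    · rw [hAB]
      simp
  have hE2 : ∀ a b, (a, b) ∈ (top :: l2 ++ [bot]).zip (top :: l2 ++ [bot]).tail →
      b.2 < a.2 ∧ (a, b) ∈ L.zip (L.rotate 1) ∧ a ∈ top :: l2 ++ [bot] ∧
        b ∈ top :: l2 ++ [bot] := by
    intro a b hab
    obtain ⟨A, B, hAB⟩ := (mem_zip_tail _ a b).1 hab
    refine ⟨?_, ?_, ?_, ?_⟩
    · rw [hAB] at hcZ
      have := (List.pairwise_append.1 hcZ).2.1
      exact (List.pairwise_cons.1 this).1 b List.mem_cons_self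
    · rw [← hedge, zip_rot, mem_zip_tail, hP]
      refine ⟨bot :: l1 ++ A, B, ?_⟩
      have : (bot :: l1) ++ top :: (l2 ++ [bot]) = (bot :: l1) ++ (top :: l2 ++ [bot]) := by simp
      rw [this, hAB]
      simp
    · rw [hAB]
      simp
    · rw [hAB]
      simp
  have hcommon : ∀ x, x ∈ bot :: l1 ++ [top] → x ∈ top :: l2 ++ [bot] → x = bot ∨ x = top := by
    intro x hx hx'
    by_contra hc
    rw [not_or] at hc
    have h1 : x ∈ l1 := by
      simp only [List.cons_append, List.mem_cons, List.mem_append, List.not_mem_nil,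
        or_false] at hx
      tauto
    have h2 : x ∈ l2 := by
      simp only [List.cons_append, List.mem_cons, List.mem_append, List.not_mem_nil,
        or_false] at hx'
      tauto
    exact (List.nodup_append.1 hMnd2).2.2 x h1 x (List.mem_cons_of_mem _ h2) rfl
  ext x
  constructor
  · rintro ⟨⟨⟨a, b⟩, he, hx⟩, ⟨⟨a', b'⟩, he', hx'⟩⟩
    obtain ⟨h1, h2, h3, h4⟩ := hE1 a b he
    obtain ⟨h1', h2', h3', h4'⟩ := hE2 a' b' he'
    have hne : ((a, b) : (ℂ × ℝ) × (ℂ × ℝ)) ≠ (a', b') := by
      intro h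
      rw [Prod.mk.injEq] at h
      rw [← h.1, ← h.2] at h1'
      exact lt_asymm h1 h1'
    obtain ⟨h5, h6⟩ := simple_edges hS _ _ h2 h2' hne x hx hx'
    have h7 : x ∈ bot :: l1 ++ [top] := by
      rcases h5 with h5 | h5
      · rw [h5]; exact h3
      · rw [h5]; exact h4
    have h8 : x ∈ top :: l2 ++ [bot] := by
      rcases h6 with h6 | h6
      · rw [h6]; exact h3'
      · rw [h6]; exact h4'
    exact hcommon x h7 h8
  · have hhead : ∀ (a : ℂ × ℝ) (Q : List (ℂ × ℝ)) (b : ℂ × ℝ), a ∈ arc (a :: Q ++ [b]) := by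
      intro a Q b
      cases Q with
      | nil => exact ⟨(a, b), by simp, left_mem_segment ℝ _ _⟩
      | cons c Q => exact ⟨(a, c), by simp, left_mem_segment ℝ _ _⟩
    have hlast : ∀ (a : ℂ × ℝ) (Q : List (ℂ × ℝ)) (b : ℂ × ℝ), b ∈ arc (a :: Q ++ [b]) := by
      intro a Q b
      rw [← arc_rev]
      have : (a :: Q ++ [b]).reverse = b :: Q.reverse ++ [a] := by simp
      rw [this]
      exact hhead b _ a
    rintro (rfl | rfl)
    · exact ⟨hhead _ _ _, hlast _ _ _⟩
    · exact ⟨hlast _ _ _, hhead _ _ _⟩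

end Pool.Agent.K7.H66.UK
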